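import Pool.Agent.Lib.MP_00b752_lc.Theory
import Pool.Agent.Shared.Blossom.DCS

/-!
The algorithm on threshold boxes and its correctness.
-/

namespace Pool.Agent.Lib.MP_00b752_lc

open Finset Function Pool.Agent.Shared.Blossom

/-- Lower thresholds described by a list of moves. -/
def sOf (x : List (ℕ × Bool)) (u : ℕ) : ℕ := x.count (u, false)

/-- Upper thresholds described by a list of moves. -/
def tOf (R : ℕ) (x : List (ℕ × Bool)) (w : ℕ) : ℕ := R - x.count (w, true)

/-- Vertices of the bipartite double cover. -/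
def V2 (n : ℕ) : List (ℕ × Bool) := (List.range n).flatMap fun v => [(v, false), (v, true)]

theorem mem_V2 {n : ℕ} {p : ℕ × Bool} : p ∈ V2 n ↔ p.1 < n := by
  obtain ⟨v, b⟩ := p
  cases b <;> simp [V2]

theorem length_V2 (n : ℕ) : (V2 n).length = 2 * n := by
  simp [V2, List.length_flatMap, Nat.mul_comm]

/-- A relation on arcs viewed as a symmetric relation on the double cover. -/
def lift2 (f : ℕ → ℕ → Bool) (p q : ℕ × Bool) : Bool :=
  cond p.2 (!q.2 && f q.1 p.1) (q.2 && f p.1 q.1)

theorem lift2_symm (f : ℕ → ℕ → Bool) (p q : ℕ × Bool) : lift2 f p q = lift2 f q p := by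
  obtain ⟨u, b⟩ := p
  obtain ⟨w, c⟩ := q
  cases b <;> cases c <;> simp [lift2]

namespace Par

variable (P : Par)

/-- Lower degree bounds on the double cover. -/
def lo2 (x K : List (ℕ × Bool)) (p : ℕ × Bool) : ℕ :=
  cond (!p.2 && (decide (p ∈ K) && decide (sOf x p.1 < P.R))) (P.c p.1) 0

/-- Upper degree bounds on the double cover. -/
def hi2 (K : List (ℕ × Bool)) (p : ℕ × Bool) : ℕ :=
  cond (p.2 && decide (p ∈ K)) (P.c p.1) P.n

/-- Feasibility test for the constraints in `K`. -/
def feas (x K : List (ℕ × Bool)) : Bool :=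
  (dcs (V2 P.n) (lift2 (P.al (sOf x) (tOf P.R x))) (lift2 (P.fo (sOf x) (tOf P.R x)))
    (P.lo2 x K) (P.hi2 K)).isSome

/-- The box is not degenerate at `v`. -/
def gap (x : List (ℕ × Bool)) (v : ℕ) : Bool :=
  decide (x.count (v, false) + x.count (v, true) < P.R)

/-- One round of the closure loop. -/
def kstep (o : Option (List (ℕ × Bool))) : Option (List (ℕ × Bool)) :=
  o.bind fun x => ((List.range (V2 P.n).length).find? fun j =>
    !P.feas x ((V2 P.n).take (j + 1))).elim (some x) fun j =>
      ((V2 P.n)[j]?).bind fun k => cond (P.gap x k.1) (some (k :: x)) none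

/-- Shrink the box until the relaxation is feasible. -/
def close (x : List (ℕ × Bool)) : Option (List (ℕ × Bool)) := P.kstep^[P.n * P.R + 1] (some x)

/-- One round of the main loop. -/
def mstep (o : Option (List (ℕ × Bool))) : Option (List (ℕ × Bool)) :=
  o.bind fun x => ((List.range P.n).find? fun v => P.gap x v).elim (some x) fun v =>
    (P.close ((v, false) :: x)).or (P.close ((v, true) :: x))

/-- The whole algorithm. -/
def solve : Option (List (ℕ × ℕ)) :=
  (P.mstep^[P.n * P.R + 1] (P.close [])).bind fun x =>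
    dcs (List.range P.n) (P.al (sOf x) (sOf x)) (P.fo (sOf x) (sOf x))
      (fun u => if sOf x u < P.R then P.c u else 0) P.c

/-- The box is nonempty. -/
def Ok (x : List (ℕ × Bool)) : Prop := ∀ v, x.count (v, false) + x.count (v, true) ≤ P.R

/-- The thresholds `r` lie in the box. -/
def InBox (r : ℕ → ℕ) (x : List (ℕ × Bool)) : Prop :=
  (∀ v, sOf x v ≤ r v) ∧ ∀ v, r v ≤ tOf P.R x v

/-- Total width of the box. -/
def width (x : List (ℕ × Bool)) : ℕ :=
  ∑ v ∈ range P.n, (P.R - (x.count (v, false) + x.count (v, true)))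

/-- The full relaxation is feasible. -/
def Full (x : List (ℕ × Bool)) : Prop :=
  ∃ D, P.Sys (sOf x) (tOf P.R x) (fun k => k.1 < P.n) D

variable {P}

theorem card_side (n : ℕ) (b : Bool) (Y : ℕ × Bool → Bool) (h : ∀ w, Y (w, !b) = false) :
    ((V2 n).toFinset.filter fun q => Y q = true).card =
      ((range n).filter fun w => Y (w, b) = true).card := by
  symm
  refine card_bij (fun w _ => (w, b)) ?_ ?_ ?_
  · intro w hw
    simpa [mem_V2] using hw
  · intro w _ w' _ e
    simpa using e
  · rintro ⟨w, c⟩ hq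
    simp only [mem_filter, List.mem_toFinset, mem_V2] at hq
    have : c = b := by
      by_contra hc
      have : c = !b := by cases c <;> cases b <;> simp_all
      rw [this, h w] at hq
      simp at hq
    subst this
    exact ⟨w, by simpa using hq, rfl⟩

theorem feas_iff (hP : P.Good) {x K : List (ℕ × Bool)} (hK : ∀ k ∈ K, k.1 < P.n) :
    P.feas x K = true ↔ ∃ D, P.Sys (sOf x) (tOf P.R x) (fun k => k ∈ K) D := by
  unfold feas
  rw [dcs_isSome_iff (fun v _ w _ h => by rwa [lift2_symm])
    (fun v _ => by obtain ⟨v, b⟩ := v; cases b <;> simp [lift2])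
    (fun v _ w _ h => by rwa [lift2_symm])]
  constructor
  · rintro ⟨X, hX⟩
    have h1 : ∀ u w b, X (u, b) (w, b) = false := by
      intro u w b
      by_contra h
      have := (hX.sub _ _ (by simpa using h)).2.2
      cases b <;> simp [lift2] at this
    refine ⟨fun u w => X (u, false) (w, true), ?_, ?_, ?_, ?_⟩
    · intro u w h
      simpa [lift2] using (hX.sub _ _ h).2.2
    · intro u w h h'
      have h2 := ((P.al_iff).1 h).1
      exact hX.forced _ (mem_V2.2 (hP.lt _ _ h2)) _ (mem_V2.2 (hP.lt _ _ (hP.symm _ _ h2)))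
        (by simpa [lift2] using h) (by simpa [lift2] using h')
    · intro u hu hs
      have := hX.lo_le (u, false) (mem_V2.2 (hK _ hu))
      rw [card_side P.n true _ (fun w => h1 u w false)] at this
      simpa [lo2, hu, hs, out] using this
    · intro w hw
      have := hX.le_hi (w, true) (mem_V2.2 (hK _ hw))
      rw [card_side P.n false _ (fun u => h1 w u true)] at this
      simp only [hi2, hw, decide_true, Bool.and_self, cond_true] at this
      refine le_trans (card_le_card fun u hu => ?_) this
      simp only [mem_filter] at hu ⊢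
      exact ⟨hu.1, hX.symm _ _ hu.2⟩
  · rintro ⟨D, hD⟩
    refine ⟨lift2 D, fun v w h => by rwa [lift2_symm], ?_, ?_, ?_, ?_⟩
    · rintro ⟨u, b⟩ ⟨w, c⟩ h
      cases b <;> cases c <;> simp only [lift2, cond_true, cond_false, Bool.not_true,
        Bool.not_false, Bool.false_and, Bool.true_and, Bool.false_eq_true, mem_V2] at h ⊢
      · have h2 := ((P.al_iff).1 (hD.sub _ _ h)).1
        exact ⟨hP.lt _ _ h2, hP.lt _ _ (hP.symm _ _ h2), hD.sub _ _ h⟩
      · have h2 := ((P.al_iff).1 (hD.sub _ _ h)).1
        exact ⟨hP.lt _ _ (hP.symm _ _ h2), hP.lt _ _ h2, hD.sub _ _ h⟩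
    · rintro ⟨u, b⟩ - ⟨w, c⟩ - h h'
      cases b <;> cases c <;> simp only [lift2, cond_true, cond_false, Bool.not_true,
        Bool.not_false, Bool.false_and, Bool.true_and, Bool.false_eq_true] at h h' ⊢
      · exact hD.forced _ _ h h'
      · exact hD.forced _ _ h h'
    · rintro ⟨u, b⟩ -
      cases b
      · rw [card_side P.n true _ (fun w => by simp [lift2])]
        by_cases h : (u, false) ∈ K ∧ sOf x u < P.R
        · simpa [lo2, h.1, h.2, lift2, out] using hD.lo u h.1 h.2
        · have : (decide ((u, false) ∈ K) && decide (sOf x u < P.R)) = false := by simpa using h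
          simp [lo2, this]
      · simp [lo2]
    · rintro ⟨u, b⟩ -
      cases b
      · rw [card_side P.n true _ (fun w => by simp [lift2])]
        simpa [hi2] using card_filter_le (range P.n) _
      · rw [card_side P.n false _ (fun w => by simp [lift2])]
        by_cases h : (u, true) ∈ K
        · simpa [hi2, h, lift2, inn] using hD.hi u h
        · simpa [hi2, h] using card_filter_le (range P.n) _

theorem count_cons' (k : ℕ × Bool) (x : List (ℕ × Bool)) (v : ℕ) :
    (k :: x).count (v, false) + (k :: x).count (v, true) =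
      x.count (v, false) + x.count (v, true) + if v = k.1 then 1 else 0 := by
  obtain ⟨u, b⟩ := k
  by_cases h : v = u
  · subst h; cases b <;> simp <;> omega
  · have h' : ¬ u = v := fun e => h e.symm
    simp [h, h']

theorem move_spec {x : List (ℕ × Bool)} {k : ℕ × Bool} (hx : P.Ok x) (hk : k.1 < P.n)
    (hg : P.gap x k.1 = true) : P.Ok (k :: x) ∧ P.width (k :: x) < P.width x := by
  simp only [gap, decide_eq_true_eq] at hg
  constructor
  · intro v
    rw [count_cons']
    have := hx v
    split_ifs with h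
    · subst h; omega
    · omega
  · refine sum_lt_sum (fun v _ => ?_) ⟨k.1, mem_range.2 hk, ?_⟩
    · rw [count_cons']; omega
    · rw [count_cons', if_pos rfl]; omega

theorem inBox_cons {x : List (ℕ × Bool)} {k : ℕ × Bool} {r : ℕ → ℕ} (h : P.InBox r x)
    (hk : if k.2 = true then r k.1 < tOf P.R x k.1 else sOf x k.1 < r k.1) :
    P.InBox r (k :: x) := by
  obtain ⟨u, b⟩ := k
  refine ⟨fun v => ?_, fun v => ?_⟩
  · have := h.1 v
    cases b
    · by_cases e : u = v
      · subst e; simpa [sOf] using hk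
      · simpa [sOf, List.count_cons, e] using this
    · simpa [sOf, List.count_cons] using this
  · have := h.2 v
    cases b
    · simpa [tOf, List.count_cons] using this
    · by_cases e : u = v
      · subst e
        simp only [tOf, if_true, List.count_cons_self] at hk ⊢
        omega
      · simpa [tOf, List.count_cons, e] using this

theorem kstep_spec (hP : P.Good) {x : List (ℕ × Bool)} (hx : P.Ok x) :
    (P.kstep (some x) = some x ∧ P.Full x) ∨
    (∃ y, P.kstep (some x) = some y ∧ P.Ok y ∧ P.width y < P.width x ∧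
      ∀ r X, P.Feas r X → P.InBox r x → P.InBox r y) ∨
    (P.kstep (some x) = none ∧ ∀ r X, P.Feas r X → ¬ P.InBox r x) := by
  have hK : ∀ j, ∀ k ∈ (V2 P.n).take j, k.1 < P.n := fun j k hk =>
    mem_V2.1 (List.mem_of_mem_take hk)
  have hnil : ∃ D, P.Sys (sOf x) (tOf P.R x) (fun k => k ∈ (V2 P.n).take 0) D :=
    ⟨P.al (sOf x) (tOf P.R x), fun _ _ h => h, fun _ _ h _ => h, by simp, by simp⟩
  have hprev : ∀ j, (∀ i < j, P.feas x ((V2 P.n).take (i + 1)) = true) →
      ∃ D, P.Sys (sOf x) (tOf P.R x) (fun k => k ∈ (V2 P.n).take j) D := by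
    intro j hj
    rcases j with _ | j
    · exact hnil
    · exact (feas_iff hP (hK _)).1 (hj j (Nat.lt_succ_self j))
  unfold kstep
  simp only [Option.bind_some]
  rcases hf : List.find? _ (List.range (V2 P.n).length) with _ | j
  · left
    refine ⟨rfl, ?_⟩
    obtain ⟨D, hD⟩ := hprev (V2 P.n).length (by simpa using List.find?_range_eq_none.1 hf)
    refine ⟨D, hD.sub, hD.forced, fun u hu => hD.lo u ?_, fun u hu => hD.hi u ?_⟩ <;>
      simpa [mem_V2] using hu
  · right
    obtain ⟨h1, h2, h3⟩ := List.find?_range_eq_some.1 hf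
    rw [List.mem_range] at h2
    obtain ⟨N, hN⟩ := hprev j (by simpa using h3)
    have hinf : ¬ ∃ D, P.Sys (sOf x) (tOf P.R x) (fun k => k ∈ (V2 P.n).take (j + 1)) D := by
      rw [← feas_iff hP (hK _)]; simpa using h1
    have hmove : ∀ r X, P.Feas r X → P.InBox r x → _ := fun r X hX hr =>
      must_move (k := (V2 P.n)[j]) (fun k' hk' => by
        rw [List.take_succ_eq_append_getElem h2, List.mem_append, List.mem_singleton] at hk'
        exact hk'.symm) (hK _) hinf hN hX hr.1 hr.2
    simp only [Option.elim, List.getElem?_eq_getElem h2, Option.bind_some]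
    have hkn : ((V2 P.n)[j]).1 < P.n := mem_V2.1 (List.getElem_mem h2)
    generalize (V2 P.n)[j] = k at hmove hkn
    cases hg : P.gap x k.1
    · right
      refine ⟨rfl, fun r X hX hr => ?_⟩
      have h4 := hmove r X hX hr
      have h5 := hr.1 k.1
      have h6 := hr.2 k.1
      simp only [gap, decide_eq_false_iff_not, sOf, tOf] at hg h4 h5 h6
      split_ifs at h4 <;> omega
    · left
      obtain ⟨g1, g2⟩ := move_spec hx hkn hg
      exact ⟨_, rfl, g1, g2, fun r X hX hr => inBox_cons hr (hmove r X hX hr)⟩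

theorem width_le (x : List (ℕ × Bool)) : P.width x ≤ P.n * P.R := by
  refine (sum_le_card_nsmul _ _ P.R fun v _ => Nat.sub_le _ _).trans ?_
  simp

theorem close_spec (hP : P.Good) {x : List (ℕ × Bool)} (hx : P.Ok x) :
    (∃ y, P.close x = some y ∧ P.Ok y ∧ P.Full y ∧ P.width y ≤ P.width x) ∨
    (P.close x = none ∧ ∀ r X, P.Feas r X → ¬ P.InBox r x) := by
  have key : ∀ i, (∃ y, P.kstep^[i] (some x) = some y ∧ P.Ok y ∧ P.width y ≤ P.width x ∧
      (P.Full y ∨ P.width y + i ≤ P.width x) ∧ ∀ r X, P.Feas r X → P.InBox r x → P.InBox r y) ∨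
      (P.kstep^[i] (some x) = none ∧ ∀ r X, P.Feas r X → ¬ P.InBox r x) := by
    intro i
    induction i with
    | zero => exact Or.inl ⟨x, rfl, hx, le_rfl, Or.inr le_rfl, fun _ _ _ h => h⟩
    | succ i ih =>
      rw [iterate_succ_apply']
      rcases ih with ⟨y, h1, h2, h3, h4, h5⟩ | ⟨h1, h2⟩
      · rw [h1]
        rcases kstep_spec hP h2 with ⟨g1, g2⟩ | ⟨z, g1, g2, g3, g4⟩ | ⟨g1, g2⟩
        · exact Or.inl ⟨y, g1, h2, h3, Or.inl g2, h5⟩
        · refine Or.inl ⟨z, g1, g2, by omega, ?_, fun r X hX hr => g4 r X hX (h5 r X hX hr)⟩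
          rcases h4 with h4 | h4
          · exfalso
            obtain ⟨D, hD⟩ := h4
            have : P.kstep (some y) = some y := by
              unfold kstep
              simp only [Option.bind_some]
              rw [List.find?_range_eq_none.2]
              · rfl
              · intro j _
                have hK : ∀ k ∈ (V2 P.n).take (j + 1), k.1 < P.n := fun k hk =>
                  mem_V2.1 (List.mem_of_mem_take hk)
                simpa using (feas_iff hP hK).2 ⟨D, hD.sub, hD.forced,
                  fun u hu => hD.lo u (hK _ hu), fun u hu => hD.hi u (hK _ hu)⟩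
            rw [this] at g1
            obtain rfl := Option.some.inj g1
            omega
          · right; omega
        · exact Or.inr ⟨g1, fun r X hX hr => g2 r X hX (h5 r X hX hr)⟩
      · rw [h1]; exact Or.inr ⟨rfl, h2⟩
  rcases key (P.n * P.R + 1) with ⟨y, h1, h2, h3, h4, -⟩ | h
  · refine Or.inl ⟨y, h1, h2, h4.resolve_right ?_, h3⟩
    have := width_le (P := P) x
    omega
  · exact Or.inr h

theorem Ok.le {x : List (ℕ × Bool)} (hx : P.Ok x) (v : ℕ) : sOf x v ≤ tOf P.R x v := by
  have := hx v
  simp only [sOf, tOf]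
  omega

theorem Full.box (hP : P.Good) {x : List (ℕ × Bool)} (hx : P.Ok x) (hF : P.Full x) {r : ℕ → ℕ}
    {X : ℕ → ℕ → Bool} (hX : P.Feas r X) : ∃ r' X', P.Feas r' X' ∧ P.InBox r' x :=
  let ⟨_, hD⟩ := hF
  median hP hD hx.le (fun _ => Nat.sub_le _ _) hX

theorem main_spec (hP : P.Good) :
    (∃ y, P.mstep^[P.n * P.R + 1] (P.close []) = some y ∧ P.Ok y ∧ P.Full y ∧
      ∀ v < P.n, P.gap y v = false) ∨
    (P.mstep^[P.n * P.R + 1] (P.close []) = none ∧ ∀ r X, ¬ P.Feas r X) := by
  have key : ∀ i, (∃ y, P.mstep^[i] (P.close []) = some y ∧ P.Ok y ∧ P.Full y ∧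
      ((∀ v < P.n, P.gap y v = false) ∨ P.width y + i ≤ P.n * P.R)) ∨
      (P.mstep^[i] (P.close []) = none ∧ ∀ r X, ¬ P.Feas r X) := by
    intro i
    induction i with
    | zero =>
      rcases close_spec hP (x := []) (fun v => by simp) with ⟨y, h1, h2, h3, -⟩ | ⟨h1, h2⟩
      · exact Or.inl ⟨y, h1, h2, h3, Or.inr (width_le y)⟩
      · exact Or.inr ⟨h1, fun r X hX => h2 r X hX
          ⟨fun v => by simp [sOf], fun v => by simpa [tOf] using hX.le v⟩⟩
    | succ i ih =>
      rw [iterate_succ_apply']
      rcases ih with ⟨y, h1, h2, h3, h4⟩ | ⟨h1, h2⟩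
      swap
      · rw [h1]; exact Or.inr ⟨rfl, h2⟩
      rw [h1]
      unfold mstep
      simp only [Option.bind_some]
      rcases hf : List.find? _ (List.range P.n) with _ | v
      · exact Or.inl ⟨y, rfl, h2, h3, Or.inl (by simpa using List.find?_range_eq_none.1 hf)⟩
      · obtain ⟨g1, g2, -⟩ := List.find?_range_eq_some.1 hf
        rw [List.mem_range] at g2
        have h5 : P.width y + i ≤ P.n * P.R := h4.resolve_left fun h => by simp [h v g2] at g1
        simp only [Option.elim]
        obtain ⟨a1, a2⟩ := move_spec (k := (v, false)) h2 g2 g1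
        obtain ⟨b1, b2⟩ := move_spec (k := (v, true)) h2 g2 g1
        rcases close_spec hP a1 with ⟨z, c1, c2, c3, c4⟩ | ⟨c1, c2⟩
        · exact Or.inl ⟨z, by simp [c1], c2, c3, Or.inr (by omega)⟩
        rcases close_spec hP b1 with ⟨z, d1, d2, d3, d4⟩ | ⟨d1, d2⟩
        · exact Or.inl ⟨z, by simp [c1, d1], d2, d3, Or.inr (by omega)⟩
        refine Or.inr ⟨by simp [c1, d1], fun r X hX => ?_⟩
        obtain ⟨r', X', e1, e2⟩ := h3.box hP h2 hX
        by_cases hv : sOf y v < r' v
        · exact c2 r' X' e1 (inBox_cons e2 (by simpa using hv))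
        · refine d2 r' X' e1 (inBox_cons e2 ?_)
          simp only [gap, decide_eq_true_eq, sOf, tOf, if_true] at g1 hv ⊢
          omega
  rcases key (P.n * P.R + 1) with ⟨y, h1, h2, h3, h4⟩ | h
  · exact Or.inl ⟨y, h1, h2, h3, h4.resolve_right (by omega)⟩
  · exact Or.inr h

theorem al_symm (hP : P.Good) (r : ℕ → ℕ) (v w : ℕ) (h : P.al r r v w = true) :
    P.al r r w v = true :=
  have := (P.al_iff).1 h
  (P.al_iff).2 ⟨hP.symm _ _ this.1, this.2.2, this.2.1⟩

theorem fo_symm (r : ℕ → ℕ) (v w : ℕ) (h : P.fo r r v w = true) : P.fo r r w v = true :=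
  (P.fo_iff).2 ((P.fo_iff).1 h).symm

theorem solve_spec (hP : P.Good) :
    (∀ L, P.solve = some L → ∃ r, P.Feas r fun v w => decide ((v, w) ∈ L)) ∧
    (P.solve = none → ∀ r X, ¬ P.Feas r X) := by
  unfold solve
  rcases main_spec hP with ⟨y, h1, h2, h3, h4⟩ | ⟨h1, h2⟩
  swap
  · rw [h1]; exact ⟨by simp, fun _ => h2⟩
  rw [h1]
  simp only [Option.bind_some]
  constructor
  · intro L hL
    have h := dcs_some (fun v _ w _ => al_symm hP _ v w) (fun v _ w _ => fo_symm _ v w) hL
    refine ⟨sOf y, fun a => (h2.le a).trans (Nat.sub_le _ _), h.symm, fun u w g => (h.sub u w g).2.2,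
      fun u w g g' => ?_, fun u hu hs => ?_, fun u hu => ?_⟩
    · have g2 := ((P.al_iff).1 g).1
      exact h.forced u (List.mem_range.2 (hP.lt _ _ g2)) w
        (List.mem_range.2 (hP.lt _ _ (hP.symm _ _ g2))) g g'
    · simpa [hs, out, List.toFinset_range] using h.lo_le u (List.mem_range.2 hu)
    · simpa [out, List.toFinset_range] using h.le_hi u (List.mem_range.2 hu)
  · intro hn r X hX
    obtain ⟨r', X', e1, e2⟩ := h3.box hP h2 hX
    have hr : ∀ v < P.n, r' v = sOf y v := by
      intro v hv
      have g1 := h4 v hv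
      have g2 := e2.1 v
      have g3 := e2.2 v
      simp only [gap, decide_eq_false_iff_not, sOf, tOf] at g1 g2 g3 ⊢
      omega
    have hal : ∀ u w, P.al r' r' u w = true ↔ P.al (sOf y) (sOf y) u w = true := by
      intro u w
      rw [al_iff, al_iff]
      refine and_congr_right fun g => ?_
      rw [hr u (hP.lt _ _ g), hr w (hP.lt _ _ (hP.symm _ _ g))]
    have hS : (dcs (List.range P.n) (P.al (sOf y) (sOf y)) (P.fo (sOf y) (sOf y))
        (fun u => if sOf y u < P.R then P.c u else 0) P.c).isSome = true → False := by simp [hn]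
    refine hS ((dcs_isSome_iff (fun v _ w _ => al_symm hP (sOf y) v w)
      (fun v _ => by simp [al, hP.irr]) (fun v _ w _ => fo_symm (sOf y) v w)).2
      ⟨X', e1.symm, fun v w g => ?_, fun v hv w hw g g' => ?_, fun v hv => ?_, fun v hv => ?_⟩)
    · have g1 := e1.sub v w g
      have g2 := ((P.al_iff).1 g1).1
      exact ⟨List.mem_range.2 (hP.lt _ _ g2), List.mem_range.2 (hP.lt _ _ (hP.symm _ _ g2)),
        (hal v w).1 g1⟩
    · refine e1.forced v w ((hal v w).2 g) ?_
      rw [fo_iff] at g' ⊢
      rwa [hr v (List.mem_range.1 hv), hr w (List.mem_range.1 hw)]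
    · rw [List.mem_range] at hv
      split_ifs with g
      · simpa [out, List.toFinset_range] using e1.lo v hv (by rwa [hr v hv])
      · exact Nat.zero_le _
    · simpa [out, List.toFinset_range] using e1.hi v (List.mem_range.1 hv)

end Par

end Pool.Agent.Lib.MP_00b752_lc
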