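import Mathlib

/-!
The stable fixtures problem with ties (SFT) and strong stability.
-/

namespace Pool.Agent.Lib.MP_00b752_lc

/-- An instance: the agents are `0, …, n-1` where `n` is the length of the list; entry `a` holds the
capacity of agent `a` and its preference list, a list of ties (best tie first). -/
abbrev Inst := List (ℕ × List (List ℕ))

/-- Capacity of agent `a`. -/
def cap (I : Inst) (a : ℕ) : ℕ := (I.getD a (0, [])).1

/-- Preference list of agent `a`, a list of ties. -/
def pref (I : Inst) (a : ℕ) : List (List ℕ) := (I.getD a (0, [])).2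

/-- `b` occurs in the preference list of `a`. -/
def Acc (I : Inst) (a b : ℕ) : Prop := b ∈ (pref I a).flatten

/-- Position of the tie of `b` in the preference list of `a` (smaller is better). -/
def rank (I : Inst) (a b : ℕ) : ℕ := (pref I a).findIdx fun t => decide (b ∈ t)

/-- Well-formed instances: capacities at least one, and the preference lists rank, without
repetition, the neighbours in a simple graph on the agents. -/
structure WF (I : Inst) : Prop where
  cap_pos : ∀ a < I.length, 1 ≤ cap I a
  acc_lt : ∀ a b, Acc I a b → b < I.length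
  irrefl : ∀ a, ¬ Acc I a a
  symm : ∀ a b, Acc I a b → Acc I b a
  nodup : ∀ a, (pref I a).flatten.Nodup

/-- The set `M(a)` of partners of `a` in the edge set `M`. -/
def partners (I : Inst) (M : Finset (Sym2 ℕ)) (a : ℕ) : Finset ℕ :=
  (Finset.range I.length).filter fun b => s(a, b) ∈ M

/-- `M` is a set of edges respecting the capacities. -/
def IsMatching (I : Inst) (M : Finset (Sym2 ℕ)) : Prop :=
  (∀ a b, s(a, b) ∈ M → Acc I a b) ∧ ∀ a < I.length, (partners I M a).card ≤ cap I a

/-- `w` is a worst member of `M(a)` for `a`. -/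
def Worst (I : Inst) (M : Finset (Sym2 ℕ)) (a w : ℕ) : Prop :=
  w ∈ partners I M a ∧ ∀ w' ∈ partners I M a, rank I a w' ≤ rank I a w

/-- `a` is undersubscribed or strictly prefers `b` to its worst partner. -/
def StrictlyDesires (I : Inst) (M : Finset (Sym2 ℕ)) (a b : ℕ) : Prop :=
  (partners I M a).card < cap I a ∨ ∃ w, Worst I M a w ∧ rank I a b < rank I a w

/-- `a` strictly desires `b`, or is full and indifferent between `b` and its worst partner. -/
def WeaklyDesires (I : Inst) (M : Finset (Sym2 ℕ)) (a b : ℕ) : Prop :=
  StrictlyDesires I M a b ∨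
    ((partners I M a).card = cap I a ∧ ∃ w, Worst I M a w ∧ rank I a b = rank I a w)

/-- The edge `{a, b}` outside `M` blocks `M` in the strong sense. -/
def Blocks (I : Inst) (M : Finset (Sym2 ℕ)) (a b : ℕ) : Prop :=
  Acc I a b ∧ s(a, b) ∉ M ∧ WeaklyDesires I M a b ∧ WeaklyDesires I M b a ∧
    (StrictlyDesires I M a b ∨ StrictlyDesires I M b a)

/-- `M` is a strongly stable matching. -/
def StronglyStable (I : Inst) (M : Finset (Sym2 ℕ)) : Prop :=
  IsMatching I M ∧ ∀ a b, ¬ Blocks I M a b

end Pool.Agent.Lib.MP_00b752_lc
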