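import Pool.Agent.Lib.MP_00b752_lc.Defs
import Pool.Agent.Lib.MP_00b752_lc.Algo

/-!
Link between SFT instances and threshold vectors; running time of the algorithm.
-/

namespace Pool.Agent.Lib.MP_00b752_lc

open Finset Function Pool.Agent.Shared.Blossom Pool.Agent.Shared.PolyTime

/-- The abstract data of an instance. -/
def par (I : Inst) : Par where
  n := I.length
  R := (I.flatMap fun p => p.2).length
  acc := fun a b => decide (b ∈ (pref I a).flatten)
  rk := rank I
  c := cap I

theorem acc_iff {I : Inst} {a b : ℕ} : (par I).acc a b = true ↔ Acc I a b := by simp [par, Acc]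

theorem par_good {I : Inst} (h : WF I) : (par I).Good := by
  refine ⟨fun a b g => acc_iff.2 (h.symm a b (acc_iff.1 g)), fun a => ?_,
    fun a b g => h.acc_lt b a (h.symm a b (acc_iff.1 g)), fun a b g => ?_⟩
  · simpa [← acc_iff] using h.irrefl a
  · have ha : a < I.length := h.acc_lt b a (h.symm a b (acc_iff.1 g))
    obtain ⟨t, ht, hb⟩ := List.mem_flatten.1 (acc_iff.1 g)
    have h1 : rank I a b < (pref I a).length :=
      List.findIdx_lt_length_of_exists ⟨t, ht, by simpa using hb⟩
    have h2 : (pref I a).length ≤ (I.flatMap fun p => p.2).length := by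
      refine List.Sublist.length_le ?_
      have : pref I a = (I[a]).2 := by simp [pref, ha]
      rw [this]
      exact List.sublist_flatten_of_mem (List.mem_map.2 ⟨I[a], List.getElem_mem ha, rfl⟩)
    exact h1.trans_le h2

theorem stable_of_feas {I : Inst} (h : WF I) {r : ℕ → ℕ} {X : ℕ → ℕ → Bool}
    (hX : (par I).Feas r X) {M : Finset (Sym2 ℕ)} (hM : ∀ a b, s(a, b) ∈ M ↔ X a b = true) :
    StronglyStable I M := by
  have hP := par_good h
  have hp : ∀ a, (partners I M a).card = (par I).out X a := fun a =>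
    congrArg card (filter_congr fun b _ => hM a b)
  have hw : ∀ a w, Worst I M a w → rank I a w ≤ r a := fun a w hw =>
    (((par I).al_iff).1 (hX.sub a w ((hM a w).1 (mem_filter.1 hw.1).2))).2.1
  have hs : ∀ a b, Acc I a b → StrictlyDesires I M a b → rank I a b < r a := by
    rintro a b hab (g | ⟨w, g1, g2⟩)
    · have h1 := hP.rk_lt a b (acc_iff.2 hab)
      have h2 := hX.lo a (hP.lt a b (acc_iff.2 hab))
      rw [hp] at g
      by_contra h3
      exact absurd (h2 (lt_of_le_of_lt (not_lt.1 h3) h1)) (not_le.2 g)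
    · exact g2.trans_le (hw a w g1)
  have hwk : ∀ a b, Acc I a b → WeaklyDesires I M a b → rank I a b ≤ r a := by
    rintro a b hab (g | ⟨-, w, g1, g2⟩)
    · exact (hs a b hab g).le
    · exact g2.trans_le (hw a w g1)
  refine ⟨⟨fun a b g => acc_iff.1 (((par I).al_iff).1 (hX.sub a b ((hM a b).1 g))).1,
    fun a ha => (hp a).trans_le (hX.hi a ha)⟩, ?_⟩
  rintro a b ⟨h1, h2, h3, h4, h5⟩
  have h6 := h.symm a b h1
  exact h2 ((hM a b).2 (hX.forced a b (((par I).al_iff).2 ⟨acc_iff.2 h1, hwk a b h1 h3,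
    hwk b a h6 h4⟩) (((par I).fo_iff).2 (h5.imp (hs a b h1) (hs b a h6)))))

theorem feas_of_stable {I : Inst} (h : WF I) {M : Finset (Sym2 ℕ)} (hM : StronglyStable I M) :
    ∃ r X, (par I).Feas r X := by
  have hP := par_good h
  obtain ⟨⟨m1, m2⟩, m3⟩ := hM
  set r : ℕ → ℕ := fun a => if (partners I M a).card < cap I a then (par I).R else
    (partners I M a).sup (rank I a) with hr
  have hmem : ∀ a b, s(a, b) ∈ M → b ∈ partners I M a := fun a b g =>
    mem_filter.2 ⟨mem_range.2 (h.acc_lt a b (m1 a b g)), g⟩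
  have hle : ∀ a b, s(a, b) ∈ M → rank I a b ≤ r a := by
    intro a b g
    simp only [hr]
    split_ifs
    · exact (hP.rk_lt a b (acc_iff.2 (m1 a b g))).le
    · exact le_sup (f := rank I a) (hmem a b g)
  have hw : ∀ a < I.length, ¬ (partners I M a).card < cap I a →
      ∃ w, Worst I M a w ∧ rank I a w = r a := by
    intro a ha g
    have hne : (partners I M a).Nonempty := card_pos.1 (by have := h.cap_pos a ha; omega)
    obtain ⟨w, hw1, hw2⟩ := exists_mem_eq_sup _ hne (rank I a)
    refine ⟨w, ⟨hw1, fun w' hw' => hw2 ▸ le_sup (f := rank I a) hw'⟩, ?_⟩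
    simp only [hr, g, if_false, hw2]
  have hs : ∀ a < I.length, ∀ b, rank I a b < r a → StrictlyDesires I M a b := by
    intro a ha b g
    by_cases g' : (partners I M a).card < cap I a
    · exact Or.inl g'
    · obtain ⟨w, h1, h2⟩ := hw a ha g'
      exact Or.inr ⟨w, h1, h2 ▸ g⟩
  have hwk : ∀ a < I.length, ∀ b, rank I a b ≤ r a → WeaklyDesires I M a b := by
    intro a ha b g
    by_cases g' : (partners I M a).card < cap I a
    · exact Or.inl (Or.inl g')
    · rcases g.lt_or_eq with g | g
      · exact Or.inl (hs a ha b g)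
      · obtain ⟨w, h1, h2⟩ := hw a ha g'
        exact Or.inr ⟨le_antisymm (m2 a ha) (not_lt.1 g'), w, h1, g.trans h2.symm⟩
  have hp : ∀ a, (par I).out (fun a b => decide (s(a, b) ∈ M)) a = (partners I M a).card :=
    fun a => congrArg card (filter_congr fun b _ => by simp)
  refine ⟨r, fun a b => decide (s(a, b) ∈ M), fun a => ?_, fun a b g => ?_, fun a b g => ?_,
    fun a b g g' => ?_, fun a ha g => ?_, fun a ha => ?_⟩
  · simp only [hr]
    split_ifs
    · exact le_rfl
    · exact Finset.sup_le fun b hb => (hP.rk_lt a b (acc_iff.2 (m1 a b (mem_filter.1 hb).2))).le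
  · simpa [Sym2.eq_swap] using g
  · have g1 : s(a, b) ∈ M := by simpa using g
    exact ((par I).al_iff).2 ⟨acc_iff.2 (m1 a b g1), hle a b g1, hle b a (Sym2.eq_swap ▸ g1)⟩
  · obtain ⟨g1, g2, g3⟩ := ((par I).al_iff).1 g
    have ha : a < I.length := hP.lt a b g1
    have hb : b < I.length := h.acc_lt a b (acc_iff.1 g1)
    by_contra g4
    exact m3 a b ⟨acc_iff.1 g1, by simpa using g4, hwk a ha b g2, hwk b hb a g3,
      (((par I).fo_iff).1 g').imp (hs a ha b) (hs b hb a)⟩
  · rw [hp]
    by_contra g'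
    have : (partners I M a).card < cap I a := not_le.1 g'
    simp [hr, this] at g
  · rw [hp]; exact m2 a ha

/-! ### Running time -/

variable {A : Type} [N487b59b3 A]

@[fun_prop] theorem cap_pt {I : A → Inst} {u : A → ℕ} (hI : PT I) (hu : PT u) :
    PT (fun a => cap (I a) (u a)) := by unfold cap; fun_prop

@[fun_prop] theorem pref_pt {I : A → Inst} {u : A → ℕ} (hI : PT I) (hu : PT u) :
    PT (fun a => pref (I a) (u a)) := by unfold pref; fun_prop

@[fun_prop] theorem rank_pt {I : A → Inst} {u w : A → ℕ} (hI : PT I) (hu : PT u) (hw : PT w) :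
    PT (fun a => rank (I a) (u a) (w a)) := by unfold rank; fun_prop

@[fun_prop] theorem sOf_pt {x : A → List (ℕ × Bool)} {u : A → ℕ} (hx : PT x) (hu : PT u) :
    PT (fun a => sOf (x a) (u a)) := by unfold sOf; fun_prop

@[fun_prop] theorem tOf_pt {R : A → ℕ} {x : A → List (ℕ × Bool)} {u : A → ℕ} (hR : PT R)
    (hx : PT x) (hu : PT u) : PT (fun a => tOf (R a) (x a) (u a)) := by unfold tOf; fun_prop

@[fun_prop] theorem V2_pt {n : A → ℕ} (hn : PT n) (hb : PB n) : PT (fun a => V2 (n a)) := by
  unfold V2; fun_prop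

theorem feas_pt : PT (fun p : Inst × List (ℕ × Bool) × List (ℕ × Bool) =>
    (par p.1).feas p.2.1 p.2.2) := by
  unfold Par.feas Par.lo2 Par.hi2 lift2 Par.al Par.fo par
  dsimp only
  fun_prop

theorem gap_pt : PT (fun p : Inst × List (ℕ × Bool) × ℕ => (par p.1).gap p.2.1 p.2.2) := by
  unfold Par.gap par
  dsimp only
  fun_prop

theorem n_pt : PT (fun I : Inst => (par I).n) := by unfold par; dsimp only; fun_prop
theorem n_pb : PB (fun I : Inst => (par I).n) := by unfold par; dsimp only; fun_prop
theorem R_pt : PT (fun I : Inst => (par I).R) := by unfold par; dsimp only; fun_prop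
theorem R_pb : PB (fun I : Inst => (par I).R) := by unfold par; dsimp only; fun_prop
theorem V_pt : PT (fun I : Inst => V2 (par I).n) := V2_pt n_pt n_pb

theorem kstep_pt : PT (fun p : Inst × Option (List (ℕ × Bool)) => (par p.1).kstep p.2) := by
  unfold Par.kstep
  refine PT.obind (by fun_prop) (PT.elim (PT.find? (PT.range_length (V_pt.comp' (by fun_prop)))
    (PT.not ?_)) (by fun_prop) (PT.obind (PT.getElem? (by fun_prop) (V_pt.comp' (by fun_prop)))
    (PT.cond ?_ (by fun_prop) (by fun_prop))))
  · exact feas_pt.comp' (f := fun p : ((Inst × Option (List (ℕ × Bool))) × List (ℕ × Bool)) × ℕ =>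
      (p.1.1.1, p.1.2, (V2 (par p.1.1.1).n).take (p.2 + 1)))
      (PT.pair (by fun_prop) (PT.pair (by fun_prop) (PT.take (by fun_prop)
        (V_pt.comp' (by fun_prop)))))
  · exact gap_pt.comp' (f := fun p : (((Inst × Option (List (ℕ × Bool))) × List (ℕ × Bool)) × ℕ) ×
      (ℕ × Bool) => (p.1.1.1.1, p.1.1.2, p.2.1)) (by fun_prop)

theorem sz_kstep (P : Par) (o : Option (List (ℕ × Bool))) :
    sz (P.kstep o) ≤ sz o + 2 * sz (V2 P.n) := by
  rcases o with _ | x
  · simp [Par.kstep]
  · simp only [Par.kstep, Option.bind_some]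
    rcases List.find? _ (List.range (V2 P.n).length) with _ | j
    · simp
    · simp only [Option.elim]
      rcases hk : (V2 P.n)[j]? with _ | k
      · simp
      · have := sz_mem (List.mem_of_getElem? hk)
        simp only [Option.bind_some]
        cases P.gap x k.1 <;> simp
        omega

theorem sz_close (P : Par) (x : List (ℕ × Bool)) :
    sz (P.close x) ≤ sz (some x) + (P.n * P.R + 1) * (2 * sz (V2 P.n)) := by
  unfold Par.close
  induction P.n * P.R + 1 with
  | zero => simp
  | succ i ih =>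
    rw [iterate_succ_apply']
    have := sz_kstep P (P.kstep^[i] (some x))
    rw [Nat.succ_mul]
    omega

theorem close_pt : PT (fun p : Inst × List (ℕ × Bool) => (par p.1).close p.2) := by
  unfold Par.close
  have h1 : PT (fun p : Inst × List (ℕ × Bool) => (par p.1).n) := n_pt.comp' (by fun_prop)
  have h2 : PT (fun p : Inst × List (ℕ × Bool) => (par p.1).R) := R_pt.comp' (by fun_prop)
  have h3 : PB (fun p : Inst × List (ℕ × Bool) => (par p.1).n) := n_pb.comp (by fun_prop)
  have h4 : PB (fun p : Inst × List (ℕ × Bool) => (par p.1).R) := R_pb.comp (by fun_prop)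
  exact PT.iterate_grow (f := fun p : Inst × List (ℕ × Bool) => (par p.1).kstep)
    (kstep_pt.comp' (f := fun q : (Inst × List (ℕ × Bool)) × Option (List (ℕ × Bool)) =>
      (q.1.1, q.2)) (by fun_prop)) ((h1.mul h2).add (PT.const 1)) ((h3.mul h4).add (PB.const 1))
    (by fun_prop) ((PB.const 2).mul (PB.sz (V_pt.comp' (f := Prod.fst) (by fun_prop))))
    fun a s => sz_kstep _ s

theorem mstep_pt : PT (fun p : Inst × Option (List (ℕ × Bool)) => (par p.1).mstep p.2) := by
  unfold Par.mstep
  refine PT.obind (by fun_prop) (PT.elim (PT.find? (PT.range (n_pt.comp' (by fun_prop))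
    (n_pb.comp (by fun_prop))) ?_) (by fun_prop) (PT.oor ?_ ?_))
  · exact gap_pt.comp' (f := fun p : ((Inst × Option (List (ℕ × Bool))) × List (ℕ × Bool)) × ℕ =>
      (p.1.1.1, p.1.2, p.2)) (by fun_prop)
  · exact close_pt.comp' (f := fun p : ((Inst × Option (List (ℕ × Bool))) × List (ℕ × Bool)) × ℕ =>
      (p.1.1.1, (p.2, false) :: p.1.2)) (by fun_prop)
  · exact close_pt.comp' (f := fun p : ((Inst × Option (List (ℕ × Bool))) × List (ℕ × Bool)) × ℕ =>
      (p.1.1.1, (p.2, true) :: p.1.2)) (by fun_prop)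

theorem sz_mstep (P : Par) (o : Option (List (ℕ × Bool))) :
    sz (P.mstep o) ≤ sz o + (P.n * P.R + 2) * (2 * sz (V2 P.n)) := by
  rcases o with _ | x
  · simp [Par.mstep]
  · simp only [Par.mstep, Option.bind_some]
    rcases hf : List.find? _ (List.range P.n) with _ | v
    · simp
    · have hv : v < P.n := List.mem_range.1 (List.mem_of_find?_eq_some hf)
      have h1 := sz_mem ((mem_V2 (p := (v, false))).2 hv)
      have h2 := sz_mem ((mem_V2 (p := (v, true))).2 hv)
      have h3 := sz_close P ((v, false) :: x)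
      have h4 := sz_close P ((v, true) :: x)
      have h5 : (P.n * P.R + 2) * (2 * sz (V2 P.n)) =
          (P.n * P.R + 1) * (2 * sz (V2 P.n)) + 2 * sz (V2 P.n) := by ring
      simp only [Option.elim, sz_some, sz_cons] at h3 h4 ⊢
      rcases hc : P.close ((v, false) :: x) with _ | y
      · simp only [Option.none_or]; omega
      · rw [hc] at h3; simp only [Option.some_or]; omega

theorem solve_pt : PT (fun I : Inst => (par I).solve) := by
  unfold Par.solve
  refine PT.obind (PT.iterate_grow (f := fun I : Inst => (par I).mstep) mstep_pt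
    ((n_pt.mul R_pt).add (PT.const 1)) ((n_pb.mul R_pb).add (PB.const 1))
    (close_pt.comp' (f := fun I : Inst => (I, [])) (by fun_prop))
    (((n_pb.mul R_pb).add (PB.const 2)).mul ((PB.const 2).mul (PB.sz V_pt)))
    fun a s => sz_mstep _ s) ?_
  unfold Par.al Par.fo par
  dsimp only
  fun_prop

theorem main : ∃ f : Inst → Bool × List (ℕ × ℕ), N68a2faeb.IsPolyTime f ∧ ∀ I, WF I →
    ((f I).1 = true → StronglyStable I ((f I).2.map fun p => s(p.1, p.2)).toFinset) ∧
    ((f I).1 = false → ∀ M, ¬ StronglyStable I M) := by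
  refine ⟨fun I => ((par I).solve.isSome, (par I).solve.getD []),
    PT.isPolyTime (solve_pt.isSome.pair (solve_pt.getD (PT.const _))), fun I hI => ?_⟩
  obtain ⟨h1, h2⟩ := Par.solve_spec (par_good hI)
  beta_reduce
  rcases hs : (par I).solve with _ | L
  · refine ⟨by simp, fun _ M hM => ?_⟩
    obtain ⟨r, X, hX⟩ := feas_of_stable hI hM
    exact h2 hs r X hX
  · refine ⟨fun _ => ?_, by simp⟩
    obtain ⟨r, hr⟩ := h1 L hs
    refine stable_of_feas hI hr fun a b => ?_
    simp only [Option.getD_some, List.mem_toFinset, List.mem_map, Sym2.eq_iff, Prod.exists,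
      decide_eq_true_eq]
    constructor
    · rintro ⟨u, w, h, ⟨rfl, rfl⟩ | ⟨rfl, rfl⟩⟩
      · exact h
      · simpa using hr.symm u w (by simpa using h)
    · exact fun h => ⟨a, b, h, Or.inl ⟨rfl, rfl⟩⟩

end Pool.Agent.Lib.MP_00b752_lc
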