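import Mathlib

/-!
Threshold vectors for strong stability: the two structural lemmas.
-/

namespace Pool.Agent.Lib.MP_00b752_lc

open Finset

/-- Abstract data of an instance; `R` plays the role of the threshold infinity. -/
structure Par where
  n : ℕ
  R : ℕ
  acc : ℕ → ℕ → Bool
  rk : ℕ → ℕ → ℕ
  c : ℕ → ℕ

namespace Par

variable (P : Par)

/-- Well-formedness of the abstract data. -/
structure Good : Prop where
  symm : ∀ a b, P.acc a b = true → P.acc b a = true
  irr : ∀ a, P.acc a a = false
  lt : ∀ a b, P.acc a b = true → a < P.n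
  rk_lt : ∀ a b, P.acc a b = true → P.rk a b < P.R

/-- The arc from `u` to `w` is within the thresholds `s u` and `t w`. -/
def al (s t : ℕ → ℕ) (u w : ℕ) : Bool :=
  P.acc u w && (decide (P.rk u w ≤ s u) && decide (P.rk w u ≤ t w))

/-- One of the two thresholds is strictly above the rank. -/
def fo (s t : ℕ → ℕ) (u w : ℕ) : Bool := decide (P.rk u w < s u) || decide (P.rk w u < t w)

theorem al_iff {s t : ℕ → ℕ} {u w : ℕ} :
    P.al s t u w = true ↔ P.acc u w = true ∧ P.rk u w ≤ s u ∧ P.rk w u ≤ t w := by simp [al]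

theorem fo_iff {s t : ℕ → ℕ} {u w : ℕ} :
    P.fo s t u w = true ↔ P.rk u w < s u ∨ P.rk w u < t w := by simp [fo]

/-- Out-degree. -/
def out (D : ℕ → ℕ → Bool) (u : ℕ) : ℕ := ((range P.n).filter fun w => D u w = true).card

/-- In-degree. -/
def inn (D : ℕ → ℕ → Bool) (w : ℕ) : ℕ := ((range P.n).filter fun u => D u w = true).card

/-- The arc set `D` satisfies the degree constraints selected by `K`. -/
structure Sys (s t : ℕ → ℕ) (K : ℕ × Bool → Prop) (D : ℕ → ℕ → Bool) : Prop where
  sub : ∀ u w, D u w = true → P.al s t u w = true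
  forced : ∀ u w, P.al s t u w = true → P.fo s t u w = true → D u w = true
  lo : ∀ u, K (u, false) → s u < P.R → P.c u ≤ P.out D u
  hi : ∀ w, K (w, true) → P.inn D w ≤ P.c w

/-- `X` is a strongly stable matching witnessed by the thresholds `r`. -/
structure Feas (r : ℕ → ℕ) (X : ℕ → ℕ → Bool) : Prop where
  le : ∀ a, r a ≤ P.R
  symm : ∀ u w, X u w = true → X w u = true
  sub : ∀ u w, X u w = true → P.al r r u w = true
  forced : ∀ u w, P.al r r u w = true → P.fo r r u w = true → X u w = true
  lo : ∀ u < P.n, r u < P.R → P.c u ≤ P.out X u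
  hi : ∀ u < P.n, P.out X u ≤ P.c u

variable {P}

theorem Feas.inn_eq {r : ℕ → ℕ} {X : ℕ → ℕ → Bool} (h : P.Feas r X) (w : ℕ) :
    P.inn X w = P.out X w := by
  unfold inn out
  congr 1
  ext u
  simp only [mem_filter]
  exact and_congr_right fun _ => ⟨h.symm _ _, h.symm _ _⟩

theorem out_mono {D D' : ℕ → ℕ → Bool} {u : ℕ} (h : ∀ w, D u w = true → D' u w = true) :
    P.out D u ≤ P.out D' u :=
  card_le_card fun w hw => by
    simp only [mem_filter] at hw ⊢; exact ⟨hw.1, h w hw.2⟩

theorem inn_mono {D D' : ℕ → ℕ → Bool} {w : ℕ} (h : ∀ u, D u w = true → D' u w = true) :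
    P.inn D w ≤ P.inn D' w :=
  card_le_card fun u hu => by
    simp only [mem_filter] at hu ⊢; exact ⟨hu.1, h u hu.2⟩

/-- If adding the constraint `k` destroys feasibility, every stable threshold vector in the box
moves away from the box boundary at `k`. -/
theorem must_move {s t r : ℕ → ℕ} {K K' : ℕ × Bool → Prop} {k : ℕ × Bool}
    (hK : ∀ k', K' k' → k' = k ∨ K k') (hKn : ∀ k', K' k' → k'.1 < P.n)
    (hinf : ¬ ∃ D, P.Sys s t K' D) {N : ℕ → ℕ → Bool} (hN : P.Sys s t K N)
    {X : ℕ → ℕ → Bool} (hX : P.Feas r X) (hs : ∀ v, s v ≤ r v) (ht : ∀ v, r v ≤ t v) :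
    if k.2 = true then r k.1 < t k.1 else s k.1 < r k.1 := by
  classical
  by_contra hcon
  apply hinf
  refine ⟨fun u w => if (K' (u, false) ∧ r u = s u) ∨ (K' (w, true) ∧ r w = t w) then
    P.al s t u w && (X u w || P.fo s t u w) else N u w, ?_, ?_, ?_, ?_⟩
  · intro u w h
    split_ifs at h
    · simp only [Bool.and_eq_true] at h; exact h.1
    · exact hN.sub u w h
  · intro u w h1 h2
    split_ifs
    · simp [h1, h2]
    · exact hN.forced u w h1 h2
  · intro u hu hsu
    by_cases hr : r u = s u
    · refine (hX.lo u (hKn _ hu) (hr ▸ hsu)).trans (out_mono fun w hw => ?_)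
      have h1 := (P.al_iff).1 (hX.sub u w hw)
      have h2 : P.al s t u w = true := (P.al_iff).2 ⟨h1.1, hr ▸ h1.2.1, h1.2.2.trans (ht w)⟩
      simp [hu, hr, h2, hw]
    · have hlt : s u < r u := lt_of_le_of_ne (hs u) (Ne.symm hr)
      have hKu : K (u, false) := (hK _ hu).resolve_left fun e => hcon (by simpa [← e] using hlt)
      refine (hN.lo u hKu hsu).trans (out_mono fun w hw => ?_)
      split_ifs with h
      · have h0 := (h.resolve_left fun h => hr h.2).2
        have h1 := hN.sub u w hw
        have h2 := (P.al_iff).1 h1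
        have h3 : X u w = true := hX.forced u w ((P.al_iff).2 ⟨h2.1, by omega, by omega⟩)
          ((P.fo_iff).2 (Or.inl (by omega)))
        simp [h1, h3]
      · exact hw
  · intro w hw
    by_cases hr : r w = t w
    · refine le_trans (inn_mono fun u hu => ?_) ((hX.inn_eq w).le.trans (hX.hi w (hKn _ hw)))
      simp only [hw, hr, and_self, or_true, if_true, Bool.and_eq_true, Bool.or_eq_true] at hu
      refine hu.2.elim id fun h => ?_
      have h1 := (P.al_iff).1 hu.1
      have h2 := (P.fo_iff).1 h
      have h3 := hs u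
      exact hX.forced u w ((P.al_iff).2 ⟨h1.1, by omega, by omega⟩) ((P.fo_iff).2 (by omega))
    · have hlt : r w < t w := lt_of_le_of_ne (ht w) hr
      have hKw : K (w, true) := (hK _ hw).resolve_left fun e => hcon (by simpa [← e] using hlt)
      refine le_trans (inn_mono fun u hu => ?_) (hN.hi w hKw)
      split_ifs at hu with h
      · simp only [Bool.and_eq_true, Bool.or_eq_true] at hu
        refine hN.forced u w hu.1 (hu.2.elim (fun h => ?_) id)
        have h1 := (P.al_iff).1 (hX.sub u w h)
        exact (P.fo_iff).2 (Or.inr (by omega))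
      · exact hu

theorem card_pairs (n : ℕ) (Q : ℕ → ℕ → Prop) [∀ a b, Decidable (Q a b)] :
    ((range n ×ˢ range n).filter fun p => Q p.1 p.2).card =
      ∑ u ∈ range n, ((range n).filter fun w => Q u w).card := by
  simp only [card_filter, sum_product]

theorem card_pairs' (n : ℕ) (Q : ℕ → ℕ → Prop) [∀ a b, Decidable (Q a b)] :
    ((range n ×ˢ range n).filter fun p => Q p.1 p.2).card =
      ∑ w ∈ range n, ((range n).filter fun u => Q u w).card := by
  simp only [card_filter, sum_product_right]

theorem card_diff_le {s : Finset ℕ} {p q : ℕ → Prop} [DecidablePred p] [DecidablePred q]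
    (h : (s.filter p).card ≤ (s.filter q).card) :
    (s.filter fun x => p x ∧ ¬ q x).card ≤ (s.filter fun x => q x ∧ ¬ p x).card := by
  have h1 := card_filter_add_card_filter_not (s := s.filter p) q
  have h2 := card_filter_add_card_filter_not (s := s.filter q) p
  rw [filter_filter, filter_filter] at h1 h2
  have h3 : (s.filter fun x => p x ∧ q x) = s.filter fun x => q x ∧ p x :=
    filter_congr fun _ _ => and_comm
  rw [h3] at h1
  omega

theorem Sys.out_eq_inn (hP : P.Good) {s t : ℕ → ℕ} {D : ℕ → ℕ → Bool}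
    (hD : P.Sys s t (fun k => k.1 < P.n) D) (hst : ∀ v, s v ≤ t v) :
    ∀ v < P.n, P.inn D v = P.out D v := by
  have h1 : ∀ v ∈ range P.n, P.inn D v ≤ P.out D v := by
    intro v hv
    rw [mem_range] at hv
    by_cases h : s v < P.R
    · exact (hD.hi v hv).trans (hD.lo v hv h)
    · refine card_le_card fun w hw => ?_
      simp only [mem_filter] at hw ⊢
      have h2 := (P.al_iff).1 (hD.sub _ _ hw.2)
      have h3 := hP.symm _ _ h2.1
      have h4 := hP.rk_lt _ _ h3
      have h5 := hst w
      exact ⟨hw.1, hD.forced _ _ ((P.al_iff).2 ⟨h3, by omega, by omega⟩)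
        ((P.fo_iff).2 (Or.inl (by omega)))⟩
  have h2 : ∑ v ∈ range P.n, P.inn D v = ∑ v ∈ range P.n, P.out D v :=
    (card_pairs' P.n fun u w => D u w = true).symm.trans (card_pairs P.n fun u w => D u w = true)
  intro v hv
  exact (sum_eq_sum_iff_of_le h1).1 h2 v (mem_range.2 hv)

/-- If the relaxation is feasible on the box `[s, t]` and some strongly stable matching exists,
then one exists with thresholds in the box. -/
theorem median (hP : P.Good) {s t r : ℕ → ℕ} {D X : ℕ → ℕ → Bool}
    (hD : P.Sys s t (fun k => k.1 < P.n) D) (hst : ∀ v, s v ≤ t v) (ht : ∀ v, t v ≤ P.R)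
    (hX : P.Feas r X) : ∃ r' X', P.Feas r' X' ∧ (∀ v, s v ≤ r' v) ∧ ∀ v, r' v ≤ t v := by
  have hio := hD.out_eq_inn hP hst
  have hDn : ∀ u w, D u w = true → u < P.n ∧ w < P.n := fun u w h =>
    have := ((P.al_iff).1 (hD.sub u w h)).1
    ⟨hP.lt _ _ this, hP.lt _ _ (hP.symm _ _ this)⟩
  have hXn : ∀ u w, X u w = true → u < P.n ∧ w < P.n := fun u w h =>
    have := ((P.al_iff).1 (hX.sub u w h)).1
    ⟨hP.lt _ _ this, hP.lt _ _ (hP.symm _ _ this)⟩
  have p1 : ∀ u w, r u < s u → X u w = true → ¬ D u w = true → t w < r w := by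
    intro u w h1 h2 h3
    have h4 := (P.al_iff).1 (hX.sub u w h2)
    by_contra h5
    exact h3 (hD.forced u w ((P.al_iff).2 ⟨h4.1, by omega, by omega⟩)
      ((P.fo_iff).2 (Or.inl (by omega))))
  have p2 : ∀ u w, t w < r w → D u w = true → ¬ X u w = true → r u < s u := by
    intro u w h1 h2 h3
    have h4 := (P.al_iff).1 (hD.sub u w h2)
    by_contra h5
    exact h3 (hX.forced u w ((P.al_iff).2 ⟨h4.1, by omega, by omega⟩)
      ((P.fo_iff).2 (Or.inr (by omega))))
  have hV1 : ∀ w < P.n, t w < r w → P.inn D w = P.c w := by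
    intro w hw h
    have h1 := hX.le w
    have h2 := hst w
    have h3 := hD.lo w hw (by omega)
    have h4 := hD.hi w hw
    have h5 := hio w hw
    omega
  set S1 := (range P.n ×ˢ range P.n).filter fun p =>
    r p.1 < s p.1 ∧ X p.1 p.2 = true ∧ ¬ D p.1 p.2 = true with hS1
  set S2 := (range P.n ×ˢ range P.n).filter fun p =>
    t p.2 < r p.2 ∧ X p.1 p.2 = true ∧ ¬ D p.1 p.2 = true with hS2
  set S3 := (range P.n ×ˢ range P.n).filter fun p =>
    t p.2 < r p.2 ∧ D p.1 p.2 = true ∧ ¬ X p.1 p.2 = true with hS3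
  set S4 := (range P.n ×ˢ range P.n).filter fun p =>
    r p.1 < s p.1 ∧ D p.1 p.2 = true ∧ ¬ X p.1 p.2 = true with hS4
  have i12 : S1 ⊆ S2 := fun p hp => by
    simp only [hS1, hS2, mem_filter] at hp ⊢
    exact ⟨hp.1, p1 _ _ hp.2.1 hp.2.2.1 hp.2.2.2, hp.2.2⟩
  have i34 : S3 ⊆ S4 := fun p hp => by
    simp only [hS3, hS4, mem_filter] at hp ⊢
    exact ⟨hp.1, p2 _ _ hp.2.1 hp.2.2.1 hp.2.2.2, hp.2.2⟩
  have c23 : S2.card ≤ S3.card := by
    rw [hS2, hS3, card_pairs' P.n fun u w => t w < r w ∧ X u w = true ∧ ¬ D u w = true,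
      card_pairs' P.n fun u w => t w < r w ∧ D u w = true ∧ ¬ X u w = true]
    refine sum_le_sum fun w hw => ?_
    rw [mem_range] at hw
    by_cases h : t w < r w
    · simp only [h, true_and]
      refine card_diff_le ?_
      have h1 := hV1 w hw h
      have h2 := hX.inn_eq w
      have h3 := hX.hi w hw
      unfold inn at h1 h2
      omega
    · simp [h]
  have c41 : S4.card ≤ S1.card := by
    rw [hS4, hS1, card_pairs P.n fun u w => r u < s u ∧ X u w = true ∧ ¬ D u w = true,
      card_pairs P.n fun u w => r u < s u ∧ D u w = true ∧ ¬ X u w = true]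
    refine sum_le_sum fun u hu => ?_
    rw [mem_range] at hu
    by_cases h : r u < s u
    · simp only [h, true_and]
      refine card_diff_le ?_
      have h0 := hst u
      have h0' := ht u
      have h1 := hX.lo u hu (by omega)
      have h2 := hio u hu
      have h3 := hD.hi u hu
      unfold out at h1 h2
      omega
    · simp [h]
  have c12 := card_le_card i12
  have c34 := card_le_card i34
  have e12 : S1 = S2 := eq_of_subset_of_card_le i12 (by omega)
  have e34 : S3 = S4 := eq_of_subset_of_card_le i34 (by omega)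
  have q1 : ∀ u w, r u < s u → D u w = true → ¬ X u w = true → t w < r w := by
    intro u w h1 h2 h3
    have : (u, w) ∈ S4 := by simp [hS4, h1, h2, h3, hDn u w h2]
    rw [← e34] at this
    exact (mem_filter.1 this).2.1
  have q2 : ∀ u w, t w < r w → X u w = true → ¬ D u w = true → r u < s u := by
    intro u w h1 h2 h3
    have : (u, w) ∈ S2 := by simp [hS2, h1, h2, h3, hXn u w h2]
    rw [← e12] at this
    exact (mem_filter.1 this).2.1
  set X' : ℕ → ℕ → Bool := fun a b => if r a < s a ∧ t b < r b then D a b else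
    if t a < r a ∧ r b < s b then D b a else X a b with hX'
  have x2 : ∀ a b, r a < s a → (X' a b = true ↔ D a b = true) := by
    intro a b ha
    have := hst a
    by_cases hb : t b < r b
    · simp [hX', ha, hb]
    · have : X' a b = X a b := by simp [hX', hb, show ¬ t a < r a by omega]
      rw [this]
      exact ⟨fun h => by_contra fun h' => hb (p1 a b ha h h'),
        fun h => by_contra fun h' => hb (q1 a b ha h h')⟩
  have x1 : ∀ a b, t a < r a → (X' a b = true ↔ D b a = true) := by
    intro a b ha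
    have := hst a
    by_cases hb : r b < s b
    · simp [hX', ha, hb, show ¬ r a < s a by omega]
    · have : X' a b = X a b := by simp [hX', hb, show ¬ r a < s a by omega]
      rw [this]
      exact ⟨fun h => by_contra fun h' => hb (q2 b a ha (hX.symm _ _ h) h'),
        fun h => by_contra fun h' => hb (p2 b a ha h fun g => h' (hX.symm _ _ g))⟩
  have x0 : ∀ a b, ¬ r a < s a → ¬ t a < r a → X' a b = X a b := by
    intro a b h1 h2; simp [hX', h1, h2]
  have xs : ∀ a b, X' a b = true → X' b a = true := by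
    intro a b h
    have h1 := hst a
    have h2 := hst b
    simp only [hX'] at h ⊢
    split_ifs at h ⊢ <;> first | exact h | exact hX.symm _ _ h | omega
  have xr : ∀ a b, X' a b = true → P.acc a b = true ∧ P.rk a b ≤ max (s a) (min (r a) (t a)) := by
    intro a b h
    by_cases h1 : r a < s a
    · have := (P.al_iff).1 (hD.sub _ _ ((x2 a b h1).1 h))
      exact ⟨this.1, by omega⟩
    · by_cases h2 : t a < r a
      · have := (P.al_iff).1 (hD.sub _ _ ((x1 a b h2).1 h))
        exact ⟨hP.symm _ _ this.1, by omega⟩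
      · have := (P.al_iff).1 (hX.sub _ _ (x0 a b h1 h2 ▸ h))
        exact ⟨this.1, by omega⟩
  have xo : ∀ a, (r a < s a → P.out X' a = P.out D a) ∧ (t a < r a → P.out X' a = P.inn D a) ∧
      (¬ r a < s a → ¬ t a < r a → P.out X' a = P.out X a) := fun a =>
    ⟨fun h => congrArg card (filter_congr fun b _ => x2 a b h),
      fun h => congrArg card (filter_congr fun b _ => x1 a b h),
      fun h h' => congrArg card (filter_congr fun b _ => by rw [x0 a b h h'])⟩
  refine ⟨fun v => max (s v) (min (r v) (t v)), X', ⟨?_, xs, ?_, ?_, ?_, ?_⟩, ?_, ?_⟩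
  · intro a; have := hst a; have := ht a; omega
  · intro u w h
    exact (P.al_iff).2 ⟨(xr u w h).1, (xr u w h).2, (xr w u (xs u w h)).2⟩
  · intro a b h1 h2
    have h3 := (P.al_iff).1 h1
    have h4 := (P.fo_iff).1 h2
    have h5 := hst a
    have h6 := hst b
    by_cases ha : r a < s a
    · exact (x2 a b ha).2 (hD.forced a b ((P.al_iff).2 ⟨h3.1, by omega, by omega⟩)
        ((P.fo_iff).2 (by omega)))
    · by_cases hb : r b < s b
      · exact xs _ _ ((x2 b a hb).2 (hD.forced b a ((P.al_iff).2
          ⟨hP.symm _ _ h3.1, by omega, by omega⟩) ((P.fo_iff).2 (by omega))))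
      · have : X' a b = X a b := by simp [hX', ha, hb]
        rw [this]
        exact hX.forced a b ((P.al_iff).2 ⟨h3.1, by omega, by omega⟩) ((P.fo_iff).2 (by omega))
  · intro u hu h
    obtain ⟨o1, o2, o3⟩ := xo u
    by_cases h1 : r u < s u
    · rw [o1 h1]; exact hD.lo u hu (by omega)
    · by_cases h2 : t u < r u
      · rw [o2 h2, hV1 u hu h2]
      · rw [o3 h1 h2]; exact hX.lo u hu (by omega)
  · intro u hu
    obtain ⟨o1, o2, o3⟩ := xo u
    by_cases h1 : r u < s u
    · rw [o1 h1, ← hio u hu]; exact hD.hi u hu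
    · by_cases h2 : t u < r u
      · rw [o2 h2, hV1 u hu h2]
      · rw [o3 h1 h2]; exact hX.hi u hu
  · intro v; beta_reduce; omega
  · intro v; have := hst v; beta_reduce; omega

end Par

end Pool.Agent.Lib.MP_00b752_lc
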