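import Pool.Agent.Lib.MP_00b752_lc.Defs
import Pool.Agent.Lib.MP_00b752_lc.Theory

/-!
Medians of an odd number of strongly stable matchings.
-/

namespace Pool.Agent.Lib.MP_00b752_lc.Med

open Finset Par

variable {P : Par}

theorem easy {r s : ℕ → ℕ} {X Y : ℕ → ℕ → Bool} (hX : P.Feas r X) (hY : P.Feas s Y) {u w : ℕ}
    (h1 : r u < s u) (h2 : X u w = true) (h3 : ¬ Y u w = true) : s w < r w := by
  have h4 := (P.al_iff).1 (hX.sub u w h2)
  by_contra h5
  exact h3 (hY.forced u w ((P.al_iff).2 ⟨h4.1, by omega, by omega⟩)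
    ((P.fo_iff).2 (Or.inl (by omega))))

/-- Opposition of interests along the symmetric difference, and equality of degrees. -/
theorem opp (hP : P.Good) {r s : ℕ → ℕ} {X Y : ℕ → ℕ → Bool} (hX : P.Feas r X) (hY : P.Feas s Y) :
    (∀ u w, s w < r w → X u w = true → ¬ Y u w = true → r u < s u) ∧
      ∀ u < P.n, r u < s u → P.c u ≤ P.out Y u := by
  have hXn : ∀ u w, X u w = true → u < P.n ∧ w < P.n := fun u w h =>
    have := ((P.al_iff).1 (hX.sub u w h)).1
    ⟨hP.lt _ _ this, hP.lt _ _ (hP.symm _ _ this)⟩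
  set S1 := (range P.n ×ˢ range P.n).filter fun p =>
    r p.1 < s p.1 ∧ X p.1 p.2 = true ∧ ¬ Y p.1 p.2 = true with hS1
  set S2 := (range P.n ×ˢ range P.n).filter fun p =>
    s p.2 < r p.2 ∧ X p.1 p.2 = true ∧ ¬ Y p.1 p.2 = true with hS2
  set S3 := (range P.n ×ˢ range P.n).filter fun p =>
    s p.2 < r p.2 ∧ Y p.1 p.2 = true ∧ ¬ X p.1 p.2 = true with hS3
  set S4 := (range P.n ×ˢ range P.n).filter fun p =>
    r p.1 < s p.1 ∧ Y p.1 p.2 = true ∧ ¬ X p.1 p.2 = true with hS4
  have i12 : S1 ⊆ S2 := fun p hp => by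
    simp only [hS1, hS2, mem_filter] at hp ⊢
    exact ⟨hp.1, easy hX hY hp.2.1 hp.2.2.1 hp.2.2.2, hp.2.2⟩
  have i34 : S3 ⊆ S4 := fun p hp => by
    simp only [hS3, hS4, mem_filter] at hp ⊢
    exact ⟨hp.1, easy hY hX hp.2.1 (hY.symm _ _ hp.2.2.1) fun g => hp.2.2.2 (hX.symm _ _ g),
      hp.2.2⟩
  have c23 : S2.card ≤ S3.card := by
    rw [hS2, hS3, card_pairs' P.n fun u w => s w < r w ∧ X u w = true ∧ ¬ Y u w = true,
      card_pairs' P.n fun u w => s w < r w ∧ Y u w = true ∧ ¬ X u w = true]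
    refine sum_le_sum fun w hw => ?_
    rw [mem_range] at hw
    by_cases h : s w < r w
    · simp only [h, true_and]
      refine card_diff_le ?_
      have h0 := hX.le w
      have h1 := hY.lo w hw (by omega)
      have h2 := hX.inn_eq w
      have h3 := hX.hi w hw
      have h4 := hY.inn_eq w
      unfold inn at h2 h4
      omega
    · simp [h]
  have t41 : ∀ u ∈ range P.n,
      ((range P.n).filter fun w => r u < s u ∧ Y u w = true ∧ ¬ X u w = true).card ≤
      ((range P.n).filter fun w => r u < s u ∧ X u w = true ∧ ¬ Y u w = true).card := by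
    intro u hu
    rw [mem_range] at hu
    by_cases h : r u < s u
    · simp only [h, true_and]
      refine card_diff_le ?_
      have h0 := hY.le u
      have h1 := hX.lo u hu (by omega)
      have h3 := hY.hi u hu
      unfold out at h1 h3
      omega
    · simp [h]
  have e1 : S1.card = _ := card_pairs P.n fun u w => r u < s u ∧ X u w = true ∧ ¬ Y u w = true
  have e4 : S4.card = _ := card_pairs P.n fun u w => r u < s u ∧ Y u w = true ∧ ¬ X u w = true
  have c41 := sum_le_sum t41
  have c12 := card_le_card i12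
  have c34 := card_le_card i34
  have e12 : S1 = S2 := eq_of_subset_of_card_le i12 (by omega)
  refine ⟨fun u w h1 h2 h3 => ?_, fun u hu h => ?_⟩
  · have : (u, w) ∈ S2 := by simp [hS2, h1, h2, h3, hXn u w h2]
    rw [← e12] at this
    exact (mem_filter.1 this).2.1
  · have h1 := (sum_eq_sum_iff_of_le t41).1 (by omega) u (mem_range.2 hu)
    simp only [h, true_and] at h1
    have h2 := card_filter_add_card_filter_not (s := (range P.n).filter fun w => X u w = true)
      fun w => Y u w = true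
    have h3 := card_filter_add_card_filter_not (s := (range P.n).filter fun w => Y u w = true)
      fun w => X u w = true
    rw [filter_filter, filter_filter] at h2 h3
    have h4 : ((range P.n).filter fun w => X u w = true ∧ Y u w = true) =
        (range P.n).filter fun w => Y u w = true ∧ X u w = true := filter_congr fun _ _ => and_comm
    rw [h4] at h2
    have h0 := hY.le u
    have h5 := hX.lo u hu (by omega)
    unfold out at h5 ⊢
    omega

/-- Position of a matching without the edge relative to a matching with the edge. -/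
theorem types (hP : P.Good) {r s : ℕ → ℕ} {X Y : ℕ → ℕ → Bool} (hX : P.Feas r X) (hY : P.Feas s Y)
    {a b : ℕ} (h1 : X a b = true) (h2 : ¬ Y a b = true) :
    P.rk a b ≤ r a ∧ P.rk b a ≤ r b ∧
      ((s a < P.rk a b ∧ r b < s b) ∨ (s b < P.rk b a ∧ r a < s a) ∨
        (s a = P.rk a b ∧ s b = P.rk b a ∧ r a = s a ∧ r b = s b)) := by
  have h3 := (P.al_iff).1 (hX.sub a b h1)
  have k1 := fun h => (opp hP hX hY).1 a b h h1 h2
  have k2 := fun h => (opp hP hX hY).1 b a h (hX.symm _ _ h1) fun g => h2 (hY.symm _ _ g)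
  have k3 : P.rk a b ≤ s a → P.rk b a ≤ s b → P.rk a b = s a ∧ P.rk b a = s b := fun p q => by
    by_contra g
    exact h2 (hY.forced a b ((P.al_iff).2 ⟨h3.1, p, q⟩) ((P.fo_iff).2 (by omega)))
  omega

/-- `i` is a median index for the values `f`. -/
def IsMed {k : ℕ} (f : Fin (2 * k + 1) → ℕ) (i : Fin (2 * k + 1)) : Prop :=
  k + 1 ≤ (univ.filter fun j => f j ≤ f i).card ∧ k + 1 ≤ (univ.filter fun j => f i ≤ f j).card

theorem meet {k : ℕ} {p q : Fin (2 * k + 1) → Prop} [DecidablePred p] [DecidablePred q]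
    (hp : k + 1 ≤ (univ.filter p).card) (hq : k + 1 ≤ (univ.filter q).card) : ∃ j, p j ∧ q j := by
  by_contra h
  push Not at h
  have h1 : Disjoint (univ.filter p) (univ.filter q) :=
    disjoint_filter.2 fun j _ g => h j g
  have h2 := card_le_univ (univ.filter p ∪ univ.filter q)
  rw [card_union_of_disjoint h1, Fintype.card_fin] at h2
  omega

theorem exists_med {k : ℕ} (f : Fin (2 * k + 1) → ℕ) : ∃ i, IsMed f i := by
  obtain ⟨m, -, hm⟩ := exists_max_image univ f univ_nonempty
  obtain ⟨i, hi, hmin⟩ := exists_min_image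
    (univ.filter fun i => k + 1 ≤ (univ.filter fun j => f j ≤ f i).card) f
    ⟨m, mem_filter.2 ⟨mem_univ _, by
      rw [filter_true_of_mem hm, card_univ, Fintype.card_fin]; omega⟩⟩
  refine ⟨i, (mem_filter.1 hi).2, ?_⟩
  by_contra h
  have h1 := card_filter_add_card_filter_not (s := univ) fun j => f i ≤ f j
  rw [card_univ, Fintype.card_fin] at h1
  obtain ⟨l, hl, hmax⟩ := exists_max_image (univ.filter fun j => ¬ f i ≤ f j) f
    (card_pos.1 (by omega))
  have h2 : (univ.filter fun j => ¬ f i ≤ f j).card ≤ (univ.filter fun j => f j ≤ f l).card :=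
    card_le_card fun j hj => mem_filter.2 ⟨mem_univ _, hmax j hj⟩
  exact (mem_filter.1 hl).2 (hmin l (mem_filter.2 ⟨mem_univ _, by omega⟩))

theorem IsMed.congr {k : ℕ} {f : Fin (2 * k + 1) → ℕ} {i j : Fin (2 * k + 1)} (h : IsMed f i)
    (e : f j = f i) : IsMed f j := by
  unfold IsMed at h ⊢
  rwa [e]

theorem abstract (hP : P.Good) {k : ℕ} {r : Fin (2 * k + 1) → ℕ → ℕ}
    {X : Fin (2 * k + 1) → ℕ → ℕ → Bool} (hX : ∀ i, P.Feas (r i) (X i)) :
    ∃ m : ℕ → Fin (2 * k + 1), (∀ a, IsMed (fun j => r j a) (m a)) ∧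
      P.Feas (fun a => r (m a) a) fun a b => X (m a) a b := by
  classical
  have ex : ∀ a, ∃ i, IsMed (fun j => r j a) i ∧ ∀ j, IsMed (fun j => r j a) j → i ≤ j := by
    intro a
    obtain ⟨i, hi⟩ := exists_med fun j => r j a
    obtain ⟨l, hl, hmin⟩ := exists_min_image (univ.filter (IsMed fun j => r j a)) id
      ⟨i, mem_filter.2 ⟨mem_univ _, hi⟩⟩
    exact ⟨l, (mem_filter.1 hl).2, fun j hj => hmin j (mem_filter.2 ⟨mem_univ _, hj⟩)⟩
  choose m hm hmin using ex
  have hs : ∀ a b, X (m a) a b = true → X (m b) b a = true := by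
    intro a b h
    by_contra g
    have g' : ¬ X (m b) a b = true := fun q => g ((hX _).symm _ _ q)
    have t0 := types hP (hX (m a)) (hX (m b)) h g'
    obtain ⟨j, j1, j2⟩ := meet (hm a).2 (hm b).2
    obtain ⟨l, l1, l2⟩ := meet (hm a).1 (hm b).1
    simp only at j1 j2 l1 l2
    have tj : (X j a b = true → _) ∧ (¬ X j a b = true → _) :=
      ⟨fun q => types hP (hX j) (hX (m b)) q g', fun q => types hP (hX (m a)) (hX j) h q⟩
    have tl : (X l a b = true → _) ∧ (¬ X l a b = true → _) :=
      ⟨fun q => types hP (hX l) (hX (m b)) q g', fun q => types hP (hX (m a)) (hX l) h q⟩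
    have e : r (m a) a = r (m b) a ∧ r (m a) b = r (m b) b := by
      by_cases qj : X j a b = true <;> by_cases ql : X l a b = true
      · have := tj.1 qj; have := tl.1 ql; omega
      · have := tj.1 qj; have := tl.2 ql; omega
      · have := tj.2 qj; have := tl.1 ql; omega
      · have := tj.2 qj; have := tl.2 ql; omega
    have e' : m a = m b :=
      le_antisymm (hmin a _ ((hm a).congr e.1.symm)) (hmin b _ ((hm b).congr e.2))
    exact g' (e' ▸ h)
  refine ⟨m, hm, fun a => (hX _).le a, hs, fun a b h => ?_, fun a b h1 h2 => ?_,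
    fun a ha h => (hX _).lo a ha h, fun a ha => (hX _).hi a ha⟩
  · have h1 := (P.al_iff).1 ((hX _).sub a b h)
    have h2 := (P.al_iff).1 ((hX _).sub b a (hs a b h))
    exact (P.al_iff).2 ⟨h1.1, h1.2.1, h2.2.1⟩
  · have h3 := (P.al_iff).1 h1
    have h4 := (P.fo_iff).1 h2
    obtain ⟨j, j1, j2⟩ := meet (hm a).2 (hm b).2
    simp only at j1 j2 h3 h4
    have h5 : X j a b = true := (hX j).forced a b ((P.al_iff).2 ⟨h3.1, by omega, by omega⟩)
      ((P.fo_iff).2 (by omega))
    by_contra g
    have := types hP (hX j) (hX (m a)) h5 g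
    omega

end Pool.Agent.Lib.MP_00b752_lc.Med
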