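import Pool.Agent.Lib.MP_00b752_lc.Med

/-!
The median theorem for SFT instances.
-/

namespace Pool.Agent.Lib.MP_00b752_lc.Med

open Finset Par

/-- The abstract data of an instance. -/
def mpar (I : Inst) : Par where
  n := I.length
  R := (I.flatMap fun p => p.2).length
  acc := fun a b => decide (b ∈ (pref I a).flatten)
  rk := rank I
  c := cap I

theorem md_acc_iff {I : Inst} {a b : ℕ} : (mpar I).acc a b = true ↔ Acc I a b := by simp [mpar, Acc]

theorem md_par_good {I : Inst} (h : WF I) : (mpar I).Good := by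
  refine ⟨fun a b g => md_acc_iff.2 (h.symm a b (md_acc_iff.1 g)), fun a => ?_,
    fun a b g => h.acc_lt b a (h.symm a b (md_acc_iff.1 g)), fun a b g => ?_⟩
  · simpa [← md_acc_iff] using h.irrefl a
  · have ha : a < I.length := h.acc_lt b a (h.symm a b (md_acc_iff.1 g))
    obtain ⟨t, ht, hb⟩ := List.mem_flatten.1 (md_acc_iff.1 g)
    have h1 : rank I a b < (pref I a).length :=
      List.findIdx_lt_length_of_exists ⟨t, ht, by simpa using hb⟩
    have h2 : (pref I a).length ≤ (I.flatMap fun p => p.2).length := by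
      refine List.Sublist.length_le ?_
      have : pref I a = (I[a]).2 := by simp [pref, ha]
      rw [this]
      exact List.sublist_flatten_of_mem (List.mem_map.2 ⟨I[a], List.getElem_mem ha, rfl⟩)
    exact h1.trans_le h2

theorem md_stable_of_feas {I : Inst} (h : WF I) {r : ℕ → ℕ} {X : ℕ → ℕ → Bool}
    (hX : (mpar I).Feas r X) {M : Finset (Sym2 ℕ)} (hM : ∀ a b, s(a, b) ∈ M ↔ X a b = true) :
    StronglyStable I M := by
  have hP := md_par_good h
  have hp : ∀ a, (partners I M a).card = (mpar I).out X a := fun a =>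
    congrArg card (filter_congr fun b _ => hM a b)
  have hw : ∀ a w, Worst I M a w → rank I a w ≤ r a := fun a w hw =>
    (((mpar I).al_iff).1 (hX.sub a w ((hM a w).1 (mem_filter.1 hw.1).2))).2.1
  have hs : ∀ a b, Acc I a b → StrictlyDesires I M a b → rank I a b < r a := by
    rintro a b hab (g | ⟨w, g1, g2⟩)
    · have h1 := hP.rk_lt a b (md_acc_iff.2 hab)
      have h2 := hX.lo a (hP.lt a b (md_acc_iff.2 hab))
      rw [hp] at g
      by_contra h3
      exact absurd (h2 (lt_of_le_of_lt (not_lt.1 h3) h1)) (not_le.2 g)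
    · exact g2.trans_le (hw a w g1)
  have hwk : ∀ a b, Acc I a b → WeaklyDesires I M a b → rank I a b ≤ r a := by
    rintro a b hab (g | ⟨-, w, g1, g2⟩)
    · exact (hs a b hab g).le
    · exact g2.trans_le (hw a w g1)
  refine ⟨⟨fun a b g => md_acc_iff.1 (((mpar I).al_iff).1 (hX.sub a b ((hM a b).1 g))).1,
    fun a ha => (hp a).trans_le (hX.hi a ha)⟩, ?_⟩
  rintro a b ⟨h1, h2, h3, h4, h5⟩
  have h6 := h.symm a b h1
  exact h2 ((hM a b).2 (hX.forced a b (((mpar I).al_iff).2 ⟨md_acc_iff.2 h1, hwk a b h1 h3,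
    hwk b a h6 h4⟩) (((mpar I).fo_iff).2 (h5.imp (hs a b h1) (hs b a h6)))))

/-- The canonical thresholds of a matching. -/
def thr (I : Inst) (M : Finset (Sym2 ℕ)) (a : ℕ) : ℕ :=
  if (partners I M a).card < cap I a then (mpar I).R else (partners I M a).sup (rank I a)

theorem md_feas_of_stable {I : Inst} (h : WF I) {M : Finset (Sym2 ℕ)} (hM : StronglyStable I M) :
    (mpar I).Feas (thr I M) fun a b => decide (s(a, b) ∈ M) := by
  have hP := md_par_good h
  obtain ⟨⟨m1, m2⟩, m3⟩ := hM
  set r : ℕ → ℕ := fun a => if (partners I M a).card < cap I a then (mpar I).R else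
    (partners I M a).sup (rank I a) with hr
  change (mpar I).Feas r _
  have hmem : ∀ a b, s(a, b) ∈ M → b ∈ partners I M a := fun a b g =>
    mem_filter.2 ⟨mem_range.2 (h.acc_lt a b (m1 a b g)), g⟩
  have hle : ∀ a b, s(a, b) ∈ M → rank I a b ≤ r a := by
    intro a b g
    simp only [hr]
    split_ifs
    · exact (hP.rk_lt a b (md_acc_iff.2 (m1 a b g))).le
    · exact le_sup (f := rank I a) (hmem a b g)
  have hw : ∀ a < I.length, ¬ (partners I M a).card < cap I a →
      ∃ w, Worst I M a w ∧ rank I a w = r a := by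
    intro a ha g
    have hne : (partners I M a).Nonempty := card_pos.1 (by have := h.cap_pos a ha; omega)
    obtain ⟨w, hw1, hw2⟩ := exists_mem_eq_sup _ hne (rank I a)
    refine ⟨w, ⟨hw1, fun w' hw' => hw2 ▸ le_sup (f := rank I a) hw'⟩, ?_⟩
    simp only [hr, g, if_false, hw2]
  have hs : ∀ a < I.length, ∀ b, rank I a b < r a → StrictlyDesires I M a b := by
    intro a ha b g
    by_cases g' : (partners I M a).card < cap I a
    · exact Or.inl g'
    · obtain ⟨w, h1, h2⟩ := hw a ha g'
      exact Or.inr ⟨w, h1, h2 ▸ g⟩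
  have hwk : ∀ a < I.length, ∀ b, rank I a b ≤ r a → WeaklyDesires I M a b := by
    intro a ha b g
    by_cases g' : (partners I M a).card < cap I a
    · exact Or.inl (Or.inl g')
    · rcases g.lt_or_eq with g | g
      · exact Or.inl (hs a ha b g)
      · obtain ⟨w, h1, h2⟩ := hw a ha g'
        exact Or.inr ⟨le_antisymm (m2 a ha) (not_lt.1 g'), w, h1, g.trans h2.symm⟩
  have hp : ∀ a, (mpar I).out (fun a b => decide (s(a, b) ∈ M)) a = (partners I M a).card :=
    fun a => congrArg card (filter_congr fun b _ => by simp)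
  refine ⟨fun a => ?_, fun a b g => ?_, fun a b g => ?_,
    fun a b g g' => ?_, fun a ha g => ?_, fun a ha => ?_⟩
  · simp only [hr]
    split_ifs
    · exact le_rfl
    · exact Finset.sup_le fun b hb => (hP.rk_lt a b (md_acc_iff.2 (m1 a b (mem_filter.1 hb).2))).le
  · simpa [Sym2.eq_swap] using g
  · have g1 : s(a, b) ∈ M := by simpa using g
    exact ((mpar I).al_iff).2 ⟨md_acc_iff.2 (m1 a b g1), hle a b g1, hle b a (Sym2.eq_swap ▸ g1)⟩
  · obtain ⟨g1, g2, g3⟩ := ((mpar I).al_iff).1 g
    have ha : a < I.length := hP.lt a b g1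
    have hb : b < I.length := h.acc_lt a b (md_acc_iff.1 g1)
    by_contra g4
    exact m3 a b ⟨md_acc_iff.1 g1, by simpa using g4, hwk a ha b g2, hwk b hb a g3,
      (((mpar I).fo_iff).1 g').imp (hs a ha b) (hs b hb a)⟩
  · rw [hp]
    by_contra g'
    have : (partners I M a).card < cap I a := not_le.1 g'
    simp [hr, this] at g
  · rw [hp]; exact m2 a ha

theorem median_matching (I : Inst) (h : WF I) (k : ℕ) (Ms : Fin (2 * k + 1) → Finset (Sym2 ℕ))
    (hM : ∀ i, StronglyStable I (Ms i)) :
    ∃ M, StronglyStable I M ∧ ∀ a < I.length, ∃ i, partners I M a = partners I (Ms i) a ∧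
      IsMed (fun j => (partners I (Ms j) a).sup (rank I a)) i := by
  have hP := md_par_good h
  have hX := fun i => md_feas_of_stable h (hM i)
  obtain ⟨m, hm, hF⟩ := abstract hP hX
  set M : Finset (Sym2 ℕ) := ((range I.length ×ˢ range I.length).filter
    fun p => s(p.1, p.2) ∈ Ms (m p.1)).image fun p => s(p.1, p.2) with hMd
  have key : ∀ a b, s(a, b) ∈ M ↔ decide (s(a, b) ∈ Ms (m a)) = true := by
    intro a b
    simp only [hMd, mem_image, mem_filter, mem_product, mem_range]
    constructor
    · rintro ⟨⟨u, w⟩, ⟨-, h1⟩, h2⟩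
      rcases Sym2.eq_iff.1 h2 with ⟨rfl, rfl⟩ | ⟨rfl, rfl⟩
      · simpa using h1
      · exact hF.symm _ _ (by simpa using h1)
    · intro h1
      have h2 := (((mpar I).al_iff).1 (hF.sub a b h1)).1
      exact ⟨(a, b), ⟨⟨hP.lt _ _ h2, hP.lt _ _ (hP.symm _ _ h2)⟩, by simpa using h1⟩, rfl⟩
  refine ⟨M, md_stable_of_feas h hF key, fun a ha => ⟨m a, ?_, ?_⟩⟩
  · exact filter_congr fun b _ => by rw [key]; simp
  · by_cases hu : ∃ i, (partners I (Ms i) a).card < cap I a
    · obtain ⟨i, hi⟩ := hu
      have r1 : thr I (Ms i) a = (mpar I).R := if_pos hi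
      have r2 : ∀ j, thr I (Ms j) a = (mpar I).R := fun j => by
        by_contra g
        have h1 := (hX j).le a
        have h2 := (opp hP (hX j) (hX i)).2 a ha (by omega)
        have h3 : (mpar I).out (fun a b => decide (s(a, b) ∈ Ms i)) a =
            (partners I (Ms i) a).card := congrArg card (filter_congr fun b _ => by simp)
        exact absurd (h2.trans_eq h3) (not_le.2 hi)
      have sub : ∀ j l b, s(a, b) ∈ Ms j → s(a, b) ∈ Ms l := fun j l b g => by
        by_contra g'
        have g1 : decide (s(a, b) ∈ Ms j) = true := by simpa using g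
        have h1 := types hP (hX j) (hX l) g1 (by simpa using g')
        have h2 := hP.rk_lt a b (((mpar I).al_iff).1 ((hX j).sub a b g1)).1
        have h3 := r2 j
        have h4 := r2 l
        omega
      have e : ∀ j, partners I (Ms j) a = partners I (Ms (m a)) a := fun j =>
        filter_congr fun b _ => ⟨sub _ _ b, sub _ _ b⟩
      unfold IsMed
      simp only [e, le_refl, filter_true, card_univ, Fintype.card_fin]
      omega
    · push Not at hu
      have e : (fun j => thr I (Ms j) a) = fun j => (partners I (Ms j) a).sup (rank I a) :=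
        funext fun j => if_neg (not_lt.2 (hu j))
      exact e ▸ hm a

end Pool.Agent.Lib.MP_00b752_lc.Med
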